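import Pool.Agent.Helper15.GS.GoalsD

/-! # GS, packet GRBC: consequences of Griffiths seminegativity -/

set_option autoImplicit false

open Complex Metric Set Filter Topology MeasureTheory
open scoped ContDiff ComplexConjugate ComplexOrder Manifold Matrix MatrixOrder
open scoped Matrix.Norms.L2Operator

namespace Pool.Agent.Helper89.GS

open Pool.Agent.Helper95.Lin Pool.Agent.Helper16.Abund Pool.Agent.Helper92.Orb
  Pool.Agent.Helper10.SP Pool.Agent.Helper95.RK Pool.Agent.Helper57.HS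
  Pool.Agent.Helper15.HS Pool.Agent.Helper15.GS

theorem psd_entries {n : ℕ} {X : Matrix (Fin n) (Fin n) ℂ} (hX : X.PosSemidef) :
    ∃ B : Matrix (Fin n) (Fin n) ℂ, ∀ i j, X j i = ∑ a, B a i * conj (B a j) := by
  obtain ⟨B, hB⟩ := CStarAlgebra.nonneg_iff_eq_star_mul_self.mp hX.nonneg
  rw [Matrix.star_eq_conjTranspose] at hB
  refine ⟨B, fun i j => ?_⟩
  rw [hB, Matrix.mul_apply]
  refine Finset.sum_congr rfl fun a _ => ?_
  rw [Matrix.conjTranspose_apply, mul_comm]
  rfl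

theorem crvP_decomp {n : ℕ} (h : Cn n → Matrix (Fin n) (Fin n) ℂ) (x : Cn n)
    (X X' A B : Matrix (Fin n) (Fin n) ℂ) (hA : ∀ i j, X j i = ∑ a, A a i * conj (A a j))
    (hB : ∀ i j, X' j i = ∑ a, B a i * conj (B a j)) :
    crvP h X X' x = ∑ a, ∑ b, ∑ i, ∑ j, ∑ k, ∑ l,
      crv h x i j k l * A a i * conj (A a j) * B b k * conj (B b l) := by
  unfold crvP
  have e1 : ∀ i j k l, X j i * X' l k * crv h x i j k l =
      ∑ a, ∑ b, crv h x i j k l * A a i * conj (A a j) * B b k * conj (B b l) := by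
    intro i j k l
    rw [hA, hB, Finset.sum_mul_sum, Finset.sum_mul]
    refine Finset.sum_congr rfl fun a _ => ?_
    rw [Finset.sum_mul]
    refine Finset.sum_congr rfl fun b _ => ?_
    ring
  simp only [e1]
  calc ∑ i, ∑ j, ∑ k, ∑ l, ∑ a, ∑ b,
        crv h x i j k l * A a i * conj (A a j) * B b k * conj (B b l)
      = ∑ i, ∑ j, ∑ k, ∑ a, ∑ l, ∑ b,
        crv h x i j k l * A a i * conj (A a j) * B b k * conj (B b l) := by
        refine Finset.sum_congr rfl fun i _ => Finset.sum_congr rfl fun j _ =>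
          Finset.sum_congr rfl fun k _ => Finset.sum_comm
    _ = ∑ i, ∑ j, ∑ a, ∑ k, ∑ l, ∑ b,
        crv h x i j k l * A a i * conj (A a j) * B b k * conj (B b l) := by
        refine Finset.sum_congr rfl fun i _ => Finset.sum_congr rfl fun j _ => Finset.sum_comm
    _ = ∑ i, ∑ a, ∑ j, ∑ k, ∑ l, ∑ b,
        crv h x i j k l * A a i * conj (A a j) * B b k * conj (B b l) := by
        refine Finset.sum_congr rfl fun i _ => Finset.sum_comm
    _ = ∑ a, ∑ i, ∑ j, ∑ k, ∑ l, ∑ b,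
        crv h x i j k l * A a i * conj (A a j) * B b k * conj (B b l) := Finset.sum_comm
    _ = ∑ a, ∑ i, ∑ j, ∑ k, ∑ b, ∑ l,
        crv h x i j k l * A a i * conj (A a j) * B b k * conj (B b l) := by
        refine Finset.sum_congr rfl fun a _ => Finset.sum_congr rfl fun i _ =>
          Finset.sum_congr rfl fun j _ => Finset.sum_congr rfl fun k _ => Finset.sum_comm
    _ = ∑ a, ∑ i, ∑ j, ∑ b, ∑ k, ∑ l,
        crv h x i j k l * A a i * conj (A a j) * B b k * conj (B b l) := by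
        refine Finset.sum_congr rfl fun a _ => Finset.sum_congr rfl fun i _ =>
          Finset.sum_congr rfl fun j _ => Finset.sum_comm
    _ = ∑ a, ∑ i, ∑ b, ∑ j, ∑ k, ∑ l,
        crv h x i j k l * A a i * conj (A a j) * B b k * conj (B b l) := by
        refine Finset.sum_congr rfl fun a _ => Finset.sum_congr rfl fun i _ => Finset.sum_comm
    _ = _ := by
        refine Finset.sum_congr rfl fun a _ => Finset.sum_comm

theorem crvP_le {n : ℕ} {W : Set (Cn n)} {h : Cn n → Matrix (Fin n) (Fin n) ℂ} (hG : GSN h W)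
    {x : Cn n} (hx : x ∈ W) {X X' : Matrix (Fin n) (Fin n) ℂ} (hX : X.PosSemidef)
    (hX' : X'.PosSemidef) : (crvP h X X' x).re ≤ 0 := by
  obtain ⟨A, hA⟩ := psd_entries hX
  obtain ⟨B, hB⟩ := psd_entries hX'
  rw [crvP_decomp h x X X' A B hA hB, Complex.re_sum]
  refine Finset.sum_nonpos fun a _ => ?_
  rw [Complex.re_sum]
  exact Finset.sum_nonpos fun b _ => hG x hx (A a) (B b)

theorem rho_eq (hWIRT : S_WIRT) (hMCAL : S_MCAL) (hCSY : S_CSY) {n : ℕ} {W : Set (Cn n)}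
    (hW : IsOpen W) {h : Cn n → Matrix (Fin n) (Fin n) ℂ} (hpd : ∀ x ∈ W, (h x).PosDef)
    (hsm : ∀ i j, ContDiffOn ℝ ∞ (fun x => h x i j) W) {x : Cn n} (hx : x ∈ W) (k l : Fin n) :
    rho h x k l = - ∑ i, ∑ j, (h x)⁻¹ j i * crv h x i j k l := by
  obtain ⟨hM1, -, -, hM4, hM5⟩ := hMCAL W hW h h hsm hsm
  obtain ⟨hld, hcd⟩ := hM5 hpd
  have hinv := (hM4 fun x hx => ne_of_gt (hpd x hx).det_pos).1
  have hld' : ContDiffOn ℝ ∞ (fun y => ((ld h y : ℝ) : ℂ)) W :=
    Complex.ofRealCLM.contDiff.comp_contDiffOn hld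
  obtain ⟨-, -, -, -, hcomm, -⟩ := hWIRT W hW _ _ hld' hld'
  -- smoothness of the entries of Gam
  have hGam : ∀ i j, ContDiffOn ℝ ∞ (fun x => Gam h k x i j) W := by
    obtain ⟨-, hP, -⟩ := hMCAL W hW (fun x => cdM k h x) (fun x => (h x)⁻¹)
      (fun i j => (hM1 k i j).1) hinv
    exact hP
  have h1 : rho h x k l = cdb l (cd k fun y => ((ld h y : ℝ) : ℂ)) x := by
    show LM (ld h) x k l = _
    unfold LM
    rw [Matrix.of_apply]
    exact (hcomm k l x hx).2.2
  have h2 : cdb l (cd k fun y => ((ld h y : ℝ) : ℂ)) x =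
      cdb l (fun y => ∑ i, Gam h k y i i) x := by
    have hev : (cd k fun y => ((ld h y : ℝ) : ℂ)) =ᶠ[𝓝 x] fun y => ∑ i, Gam h k y i i := by
      filter_upwards [hW.mem_nhds hx] with y hy
      rw [(hcd y hy k).1]
      rfl
    unfold cdb
    rw [hev.fderiv_eq]
  have h3 : cdb l (fun y => ∑ i, Gam h k y i i) x = ∑ i, cdb l (fun y => Gam h k y i i) x := by
    have hd : ∀ i ∈ (Finset.univ : Finset (Fin n)), DifferentiableAt ℝ
        (fun y => Gam h k y i i) x := fun i _ =>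
      ((hGam i i).differentiableOn (by simp)).differentiableAt (hW.mem_nhds hx)
    unfold cdb
    rw [fderiv_fun_sum hd]
    simp only [sum_apply, Finset.mul_sum, Finset.sum_add_distrib]
  have hcr := (hCSY W hW h hpd hsm x hx).1
  have h4 : ∑ i, ∑ j, (h x)⁻¹ j i * crv h x i j k l =
      - Matrix.trace (cdbM l (Gam h k) x * h x * (h x)⁻¹) := by
    rw [Matrix.trace, ← Finset.sum_neg_distrib]
    refine Finset.sum_congr rfl fun i _ => ?_
    rw [Matrix.diag_apply, Matrix.mul_apply, ← Finset.sum_neg_distrib]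
    refine Finset.sum_congr rfl fun j _ => ?_
    rw [hcr i j k l]
    ring
  have h5 : cdbM l (Gam h k) x * h x * (h x)⁻¹ = cdbM l (Gam h k) x := by
    rw [Matrix.mul_assoc, Matrix.mul_nonsing_inv _ ?_, Matrix.mul_one]
    exact (ne_of_gt (hpd x hx).det_pos).isUnit
  rw [h1, h2, h3, h4, h5, neg_neg]
  rfl

theorem sum_reorder {n : ℕ} (c : Fin n → Fin n → Fin n → Fin n → ℂ) (Y : Fin n → Fin n → ℂ)
    (y : Fin n → ℂ) :
    ∑ k, ∑ l, star (y k) * ((- ∑ i, ∑ j, Y j i * c i j k l) * y l) =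
      - ∑ i, ∑ j, ∑ k, ∑ l, Y j i * (y l * star (y k)) * c i j k l := by
  have e2 : ∀ k l, star (y k) * ((- ∑ i, ∑ j, Y j i * c i j k l) * y l) =
      - ∑ i, ∑ j, Y j i * (y l * star (y k)) * c i j k l := by
    intro k l
    rw [neg_mul, mul_neg, Finset.sum_mul, Finset.mul_sum]
    congr 1
    refine Finset.sum_congr rfl fun i _ => ?_
    rw [Finset.sum_mul, Finset.mul_sum]
    refine Finset.sum_congr rfl fun j _ => ?_
    ring
  simp only [e2, Finset.sum_neg_distrib]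
  congr 1
  calc ∑ k, ∑ l, ∑ i, ∑ j, Y j i * (y l * star (y k)) * c i j k l
      = ∑ k, ∑ i, ∑ l, ∑ j, Y j i * (y l * star (y k)) * c i j k l := by
        refine Finset.sum_congr rfl fun k _ => Finset.sum_comm
    _ = ∑ k, ∑ i, ∑ j, ∑ l, Y j i * (y l * star (y k)) * c i j k l := by
        refine Finset.sum_congr rfl fun k _ => Finset.sum_congr rfl fun i _ => Finset.sum_comm
    _ = ∑ i, ∑ k, ∑ j, ∑ l, Y j i * (y l * star (y k)) * c i j k l := Finset.sum_comm
    _ = _ := by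
        refine Finset.sum_congr rfl fun i _ => Finset.sum_comm

theorem quad_eq {n : ℕ} {h : Cn n → Matrix (Fin n) (Fin n) ℂ} {x : Cn n}
    {r : Matrix (Fin n) (Fin n) ℂ}
    (hr : ∀ k l, r k l = - ∑ i, ∑ j, (h x)⁻¹ j i * crv h x i j k l) (y : Fin n → ℂ) :
    star y ⬝ᵥ (r *ᵥ y) = - crvP h (h x)⁻¹ (Matrix.vecMulVec y (star y)) x := by
  have e : star y ⬝ᵥ (r *ᵥ y) = ∑ k, ∑ l, star (y k) * (r k l * y l) := by
    simp only [dotProduct, Matrix.mulVec, Pi.star_apply, Finset.mul_sum]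
  rw [e]
  simp only [hr]
  have h1 := sum_reorder (crv h x) (fun a b => ((h x)⁻¹ : Matrix (Fin n) (Fin n) ℂ) a b) y
  exact h1

/-- **GRBC** -/
theorem grbc (hWIRT : S_WIRT) (hLMF : S_LMF) (hMCAL : S_MCAL) (hCSY : S_CSY) : S_GRBC := by
  intro n W hW h hpd hsm hG
  refine ⟨fun x hx K hK => crvP_le hG hx hK hK, fun x hx => ⟨fun X X' hX hX' =>
    crvP_le hG hx hX hX', fun k l => rho_eq hWIRT hMCAL hCSY hW hpd hsm hx k l, ?_⟩⟩
  have hld : ContDiffOn ℝ ∞ (ld h) W := ((hMCAL W hW h h hsm hsm).2.2.2.2 hpd).1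
  have hher : (rho h x).IsHermitian := (hLMF W hW (ld h) hld).2.1 x hx
  have hr := fun k l => rho_eq hWIRT hMCAL hCSY hW hpd hsm hx k l
  have hinv : ((h x)⁻¹).PosSemidef := (hpd x hx).inv.posSemidef
  generalize rho h x = r at hher hr ⊢
  refine Matrix.PosSemidef.of_dotProduct_mulVec_nonneg hher fun y => ?_
  have hX' : (Matrix.vecMulVec y (star y)).PosSemidef := Matrix.posSemidef_vecMulVec_self_star y
  have h1 := crvP_le hG hx hinv hX'
  have h2 := quad_eq hr y
  have him : (star y ⬝ᵥ (r *ᵥ y)).im = 0 := by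
    have := hher.im_star_dotProduct_mulVec_self y
    simpa using this
  rw [Complex.nonneg_iff]
  refine ⟨?_, him.symm⟩
  rw [h2, Complex.neg_re]
  linarith

end Pool.Agent.Helper89.GS
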